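import Pool.Agent.W457.H19

/-!
# Codimension three Gorenstein algebras that are not limits of local complete intersections

`PHilb k n` is the set of ideals of `k[[x,y,z]]` of colength `n` with its Zariski topology
(see `Pool/Agent/W457/HDefs.lean`).  For every algebraically closed field `k` there are `n` and
a Gorenstein point of `PHilb k n` outside the Zariski closure of the complete intersections.
-/

open Pool.Agent.W457.HC in
/-- For every algebraically closed field `k` there are `n` and an ideal `I` of `k[[x,y,z]]` of
colength `n` such that `k[[x,y,z]]/I` is Gorenstein and `I` is not in the Zariski closure, in the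
punctual Hilbert scheme, of the ideals generated by three elements. -/
theorem Pool.Agent.Results.MP_48d439_ag.NotLimitOfCI.result.{u} :
    ∀ (k : Type u) [Field k] [IsAlgClosed k],
      ∃ (n : ℕ) (I : PHilb k n), IsGorenstein I.1 ∧ I ∉ closure {J : PHilb k n | IsCI J.1} := by
  intro k _ _
  have : Infinite k := IsAlgClosed.instInfinite
  exact main k
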